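import Mathlib
import Pool.Agent.H523R3.TransSphere

set_option autoImplicit false

/-!
# The transversal number of a simplicial circle

If the realisation of a simplicial complex with `n` vertices is homeomorphic to the circle, some set
of at most `(n + 1) / 2` vertices meets all its facets.
-/

namespace Pool.Agent.Q8.TR

open Pool.Agent.H523R3.Trans Filter Topology

/-! ### There is no triod in the circle -/

/-- the punctured circle embeds into the line -/
lemma exists_chart (p : Metric.sphere (0 : E 2) 1) :
    ∃ g : Metric.sphere (0 : E 2) 1 → ℝ, ContinuousOn g {p}ᶜ ∧ Set.InjOn g {p}ᶜ := by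
  haveI : Fact (Module.finrank ℝ (E 2) = 1 + 1) := ⟨by simp⟩
  let φ := stereographic' 1 p
  have hs : φ.source = {p}ᶜ := stereographic'_source p
  refine ⟨fun x => (φ x) 0, ?_, ?_⟩
  · have h1 : ContinuousOn φ {p}ᶜ := hs ▸ φ.continuousOn
    have h2 : Continuous (fun y : EuclideanSpace ℝ (Fin 1) => y 0) := by fun_prop
    exact h2.comp_continuousOn h1
  · intro x hx y hy hxy
    have h1 : Set.InjOn φ {p}ᶜ := hs ▸ φ.injOn
    apply h1 hx hy
    ext i
    rw [Subsingleton.elim i 0]
    exact hxy

/-- two paths in the line that start in the same point, go to the same side and meet only there -/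
lemma no_two {a b : unitInterval → ℝ} (ha : Continuous a) (hb : Continuous b) (x : ℝ)
    (h0 : a 0 = x) (h1 : b 0 = x) (ha1 : x < a 1) (hb1 : x < b 1)
    (hd : ∀ s t, a s = b t → a s = x) : False := by
  rcases le_total (a 1) (b 1) with h | h
  · have h2 : a 1 ∈ Set.Icc (b 0) (b 1) := ⟨by rw [h1]; exact ha1.le, h⟩
    obtain ⟨t, ht⟩ := intermediate_value_univ (0 : unitInterval) 1 hb h2
    have := hd 1 t ht.symm
    linarith
  · have h2 : b 1 ∈ Set.Icc (a 0) (a 1) := ⟨by rw [h0]; exact hb1.le, h⟩
    obtain ⟨t, ht⟩ := intermediate_value_univ (0 : unitInterval) 1 ha h2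
    have := hd t 1 ht
    rw [ht] at this
    linarith

/-- three paths in the circle, away from a point `p` -/
lemma no_triod (γ : Fin 3 → unitInterval → Metric.sphere (0 : E 2) 1)
    (hc : ∀ i, Continuous (γ i)) (x p : Metric.sphere (0 : E 2) 1) (h0 : ∀ i, γ i 0 = x)
    (h1 : ∀ i, γ i 1 ≠ x) (hd : ∀ i j, i ≠ j → ∀ s t, γ i s = γ j t → γ i s = x)
    (hp : ∀ i s, γ i s ≠ p) : False := by
  obtain ⟨g, hg, hgi⟩ := exists_chart p
  have hcont : ∀ i, Continuous fun s => g (γ i s) := fun i =>
    hg.comp_continuous (hc i) fun s => hp i s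
  have hx : x ≠ p := fun h => hp 0 0 ((h0 0).trans h)
  have hdis : ∀ i j, i ≠ j → ∀ s t, g (γ i s) = g (γ j t) → g (γ i s) = g x := by
    intro i j hij s t hst
    have := hgi (hp i s) (hp j t) hst
    rw [hd i j hij s t this]
  have hne : ∀ i, g (γ i 1) ≠ g x := fun i h => h1 i (hgi (hp i 1) hx h)
  have hs0 : ∀ i, g (γ i 0) = g x := fun i => by rw [h0 i]
  have hup : ∀ i j, i ≠ j → g x < g (γ i 1) → g x < g (γ j 1) → False := fun i j hij hi hj =>
    no_two (hcont i) (hcont j) (g x) (hs0 i) (hs0 j) hi hj (hdis i j hij)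
  have hdn : ∀ i j, i ≠ j → g (γ i 1) < g x → g (γ j 1) < g x → False := fun i j hij hi hj => by
    refine no_two (a := fun s => - g (γ i s)) (b := fun s => - g (γ j s)) (hcont i).neg
      (hcont j).neg (- g x) (by simp only [hs0 i]) (by simp only [hs0 j]) (by simpa using hi)
      (by simpa using hj) ?_
    intro s t hst
    have := hdis i j hij s t (neg_injective hst)
    simp only [this]
  have hs : ∀ i, g x < g (γ i 1) ∨ g (γ i 1) < g x := fun i => (hne i).symm.lt_or_gt
  rcases hs 0 with a | a <;> rcases hs 1 with b | b <;> rcases hs 2 with c | c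
  · exact hup 0 1 (by decide) a b
  · exact hup 0 1 (by decide) a b
  · exact hup 0 2 (by decide) a c
  · exact hdn 1 2 (by decide) b c
  · exact hup 1 2 (by decide) b c
  · exact hdn 0 2 (by decide) a c
  · exact hdn 0 1 (by decide) a b
  · exact hdn 0 1 (by decide) a b

/-! ### The complex -/

section

variable {n : ℕ} {Δ : Set (Finset (Fin n))} (hΔ : IsComplex Δ)
  (e : realization Δ ≃ₜ Metric.sphere (0 : E 2) 1)

/-- three segments in the realisation that start in the same point and meet only there -/
lemma no_triod' (e : realization Δ ≃ₜ Metric.sphere (0 : E 2) 1) (x : Fin n → ℝ)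
    (y : Fin 3 → Fin n → ℝ)
    (hy : ∀ i, ∀ s : ℝ, 0 ≤ s → s ≤ 1 → (fun k => (1 - s) * x k + s * y i k) ∈ realization Δ)
    (hne : ∀ i, y i ≠ x)
    (hd : ∀ i j, i ≠ j → ∀ s t : ℝ, 0 ≤ s → s ≤ 1 → 0 ≤ t → t ≤ 1 →
      (fun k => (1 - s) * x k + s * y i k) = (fun k => (1 - t) * x k + t * y j k) → s = 0) :
    False := by
  have hx : x ∈ realization Δ := by
    have := hy 0 0 le_rfl zero_le_one
    simpa using this
  let γ : Fin 3 → unitInterval → realization Δ := fun i s =>
    ⟨fun k => (1 - (s : ℝ) / 2) * x k + (s : ℝ) / 2 * y i k,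
      hy i _ (by have := s.2.1; positivity) (by have := s.2.2; linarith)⟩
  have hyr : y 0 ∈ realization Δ := by
    have := hy 0 1 zero_le_one le_rfl
    simpa using this
  refine no_triod (fun i s => e (γ i s)) (fun i => ?_) (e ⟨x, hx⟩) (e ⟨y 0, hyr⟩) (fun i => ?_)
    (fun i h => ?_) (fun i j hij s t hst => ?_) (fun i s h => ?_)
  · refine e.continuous.comp (Continuous.subtype_mk ?_ _)
    fun_prop
  · congr 1
    apply Subtype.ext
    funext k
    simp [γ]
  · have h1 := congrArg Subtype.val (e.injective h)
    apply hne i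
    funext k
    have h2 := congrFun h1 k
    simp only [γ, Set.Icc.coe_one] at h2
    linarith
  · have h1 := congrArg Subtype.val (e.injective hst)
    have h2 := hd i j hij _ _ (by have := s.2.1; positivity) (by have := s.2.2; linarith)
      (by have := t.2.1; positivity) (by have := t.2.2; linarith) h1
    have h3 : (s : ℝ) = 0 := by linarith
    congr 1
    apply Subtype.ext
    funext k
    simp [γ, h3]
  · have h1 := congrArg Subtype.val (e.injective h)
    have h1' : (fun k => (1 - (s : ℝ) / 2) * x k + (s : ℝ) / 2 * y i k) = y 0 := h1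
    by_cases hi : i = 0
    · subst hi
      apply hne 0
      funext k
      have h2 := congrFun h1' k
      have h3 : (1 - (s : ℝ) / 2) * (y 0 k - x k) = 0 := by linarith
      have h4 : (1 - (s : ℝ) / 2) ≠ 0 := by
        have := s.2.2
        intro h5
        linarith
      have := (mul_eq_zero.1 h3).resolve_left h4
      linarith
    · have h2 := hd 0 i (Ne.symm hi) 1 ((s : ℝ) / 2) zero_le_one le_rfl
        (by have := s.2.1; positivity) (by have := s.2.2; linarith) (by
          rw [h1']
          funext k
          ring)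
      exact one_ne_zero h2

/-- the point of the realisation with given weights on a face -/
lemma mem_real (hΔ : IsComplex Δ) {s : Finset (Fin n)} (hs : s ∈ Δ) {x : Fin n → ℝ}
    (h0 : ∀ i, 0 ≤ x i) (h1 : ∑ i, x i = 1) (h2 : ∀ i, x i ≠ 0 → i ∈ s) : x ∈ realization Δ := by
  refine ⟨h0, h1, hΔ.down s hs _ ?_⟩
  intro i hi
  exact h2 i (Finset.mem_filter.1 hi).2

/-- a vertex has at most two neighbours -/
lemma no_three (hΔ : IsComplex Δ) (e : realization Δ ≃ₜ Metric.sphere (0 : E 2) 1)
    {w a b c : Fin n} (hab : a ≠ b) (hac : a ≠ c) (hbc : b ≠ c) (hwa : w ≠ a) (hwb : w ≠ b)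
    (hwc : w ≠ c) (ha : {w, a} ∈ Δ) (hb : {w, b} ∈ Δ) (hc : {w, c} ∈ Δ) : False := by
  classical
  obtain ⟨v, hv⟩ : ∃ v : Fin 3 → Fin n, v = ![a, b, c] := ⟨_, rfl⟩
  have hinj : ∀ i j, i ≠ j → v i ≠ v j := by
    intro i j hij
    rw [hv]
    fin_cases i <;> fin_cases j <;> first
      | exact absurd rfl hij
      | exact hab
      | exact hac
      | exact hbc
      | exact hab.symm
      | exact hac.symm
      | exact hbc.symm
  have hface : ∀ i, {w, v i} ∈ Δ := by
    intro i
    rw [hv]
    fin_cases i
    · exact ha
    · exact hb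
    · exact hc
  have hw : ∀ i, w ≠ v i := by
    intro i
    rw [hv]
    fin_cases i
    · exact hwa
    · exact hwb
    · exact hwc
  refine no_triod' e (Pi.single w 1) (fun i => Pi.single (v i) 1) (fun i s hs0 hs1 => ?_)
    (fun i h => ?_) (fun i j hij s t hs0 hs1 ht0 ht1 h => ?_)
  · refine mem_real hΔ (hface i) (fun k => ?_) ?_ (fun k hk => ?_)
    · have h1 : ∀ u : Fin n, 0 ≤ (Pi.single u (1 : ℝ) : Fin n → ℝ) k := by
        intro u
        by_cases hk : k = u
        · subst hk; simp
        · simp [hk]
      have h2 : 0 ≤ 1 - s := by linarith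
      have h3 := h1 w
      have h4 := h1 (v i)
      positivity
    · rw [Finset.sum_add_distrib, ← Finset.mul_sum, ← Finset.mul_sum, Finset.sum_pi_single',
        Finset.sum_pi_single']
      simp
    · by_contra hcon
      rw [Finset.mem_insert, Finset.mem_singleton, not_or] at hcon
      apply hk
      simp [hcon.1, hcon.2]
  · have h1 := congrFun h w
    simp [hw i] at h1
  · have h1 := congrFun h (v i)
    simpa [hw i, (hw i).symm, hinj i j hij, (hinj i j hij).symm] using h1

/-- a set of vertices closed under taking neighbours contains everything -/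
lemma closed_all (hΔ : IsComplex Δ) (e : realization Δ ≃ₜ Metric.sphere (0 : E 2) 1)
    (A : Set (Fin n)) (hA : A.Nonempty)
    (hcl : ∀ u ∈ A, ∀ v, u ≠ v → {u, v} ∈ Δ → v ∈ A) : ∀ v, v ∈ A := by
  classical
  have hconn : ConnectedSpace (realization Δ) := by
    haveI : Fact (Module.finrank ℝ (E 2) = 1 + 1) := ⟨by simp⟩
    have h1 : IsConnected (Metric.sphere (0 : E 2) 1) := by
      apply isConnected_sphere
      · rw [← Module.finrank_eq_rank, (Fact.out : Module.finrank ℝ (E 2) = 1 + 1)]
        norm_num
      · norm_num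
    haveI : ConnectedSpace (Metric.sphere (0 : E 2) 1) := isConnected_iff_connectedSpace.1 h1
    exact e.symm.surjective.connectedSpace e.symm.continuous
  let f : realization Δ → ℝ := fun x => ∑ i, if i ∈ A then x.1 i else 0
  have hf : Continuous f := by
    refine continuous_finsetSum _ fun i _ => ?_
    split_ifs
    · exact (continuous_apply i).comp continuous_subtype_val
    · exact continuous_const
  have hval : ∀ x, f x = 0 ∨ f x = 1 := by
    rintro ⟨x, hx0, hx1, hx2⟩
    by_cases h : ∃ u ∈ A, x u ≠ 0
    · right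
      obtain ⟨u, huA, hu⟩ := h
      have : ∀ i, (if i ∈ A then x i else 0) = x i := by
        intro i
        split_ifs with hi
        · rfl
        · by_contra hcon
          apply hi
          have hne : u ≠ i := fun h => hi (h ▸ huA)
          refine hcl u huA i hne (hΔ.down _ hx2 _ ?_)
          intro k hk
          rw [Finset.mem_insert, Finset.mem_singleton] at hk
          rw [Finset.mem_filter]
          rcases hk with rfl | rfl
          · exact ⟨Finset.mem_univ _, hu⟩
          · exact ⟨Finset.mem_univ _, fun h => hcon h.symm⟩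
      simp only [f, this]
      exact hx1
    · left
      push Not at h
      simp only [f]
      refine Finset.sum_eq_zero fun i _ => ?_
      split_ifs with hi
      · exact h i hi
      · rfl
  have hvert : ∀ v : Fin n, (Pi.single v 1 : Fin n → ℝ) ∈ realization Δ := by
    intro v
    refine mem_real hΔ (hΔ.vert v) (fun k => ?_) (by simp) (fun k hk => ?_)
    · by_cases hk : k = v
      · subst hk; simp
      · simp [hk]
    · by_contra hcon
      rw [Finset.mem_singleton] at hcon
      exact hk (by simp [hcon])
  have hfv : ∀ v : Fin n, f ⟨Pi.single v 1, hvert v⟩ = if v ∈ A then 1 else 0 := by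
    intro v
    simp only [f]
    rw [Finset.sum_eq_single v]
    · simp
    · intro b _ hb
      simp [hb]
    · intro h
      exact absurd (Finset.mem_univ v) h
  obtain ⟨u, hu⟩ := hA
  intro v
  by_contra hv
  have h1 := hfv u
  have h2 := hfv v
  rw [if_pos hu] at h1
  rw [if_neg hv] at h2
  have h3 : (1 / 2 : ℝ) ∈ Set.Icc (f ⟨Pi.single v 1, hvert v⟩) (f ⟨Pi.single u 1, hvert u⟩) := by
    rw [h1, h2]
    constructor <;> norm_num
  obtain ⟨x, hx⟩ := intermediate_value_univ _ _ hf h3
  rcases hval x with h4 | h4 <;> rw [h4] at hx <;> norm_num at hx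

/-- half of the vertices (rounded up) meet all the facets -/
theorem exists_cover (hn : 0 < n) (hΔ : IsComplex Δ)
    (e : realization Δ ≃ₜ Metric.sphere (0 : E 2) 1) :
    ∃ W : Finset (Fin n), IsTransversal Δ W ∧ 2 * W.card ≤ n + 1 := by
  classical
  let P : ℕ → Prop := fun k => ∃ p : ℕ → Fin n, (∀ i ≤ k, ∀ j ≤ k, p i = p j → i = j) ∧
    ∀ i < k, {p i, p (i + 1)} ∈ Δ
  have hP0 : P 0 := ⟨fun _ => ⟨0, hn⟩, fun i hi j hj _ => by omega, fun i hi => by omega⟩
  have hPn : ∀ k, P k → k + 1 ≤ n := by
    rintro k ⟨p, hp, -⟩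
    have h1 : (Finset.range (k + 1)).card ≤ (Finset.univ : Finset (Fin n)).card := by
      refine Finset.card_le_card_of_injOn p (fun i _ => Finset.mem_univ _) ?_
      intro i hi j hj hij
      rw [Finset.coe_range, Set.mem_Iio] at hi hj
      exact hp i (by omega) j (by omega) hij
    simpa using h1
  obtain ⟨k, hk⟩ : ∃ k, k = Nat.findGreatest P n := ⟨_, rfl⟩
  have hPk : P k := hk ▸ Nat.findGreatest_spec (P := P) (Nat.zero_le n) hP0
  have hmax : ¬ P (k + 1) := by
    intro h
    have h1 := Nat.le_findGreatest (P := P) (n := n) (by have := hPn _ h; omega) h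
    omega
  obtain ⟨p, hp, hpa⟩ := hPk
  -- all the neighbours of the vertices of the path lie on the path
  have hcl : ∀ u ∈ {u | ∃ i ≤ k, p i = u}, ∀ v, u ≠ v → {u, v} ∈ Δ →
      v ∈ {u | ∃ i ≤ k, p i = u} := by
    rintro u ⟨i, hi, rfl⟩ v huv hΔv
    by_contra hv
    have hv' : ∀ j ≤ k, p j ≠ v := fun j hj h => hv ⟨j, hj, h⟩
    rcases Nat.lt_or_ge i k with h1 | h1
    · rcases Nat.eq_zero_or_pos i with h2 | h2
      · -- extend at the beginning
        subst h2
        apply hmax
        refine ⟨fun j => if j = 0 then v else p (j - 1), ?_, ?_⟩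
        · intro a ha b hb hab
          simp only at hab
          split_ifs at hab with c1 c2 c2
          · omega
          · exact absurd hab.symm (hv' _ (by omega))
          · exact absurd hab (hv' _ (by omega))
          · have := hp _ (by omega) _ (by omega) hab
            omega
        · intro a ha
          change ({(if a = 0 then v else p (a - 1)), (if a + 1 = 0 then v else p (a + 1 - 1))} :
            Finset (Fin n)) ∈ Δ
          rw [if_neg (Nat.succ_ne_zero a), Nat.add_sub_cancel]
          by_cases c1 : a = 0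
          · subst c1
            rw [if_pos rfl, Finset.pair_comm]
            exact hΔv
          · rw [if_neg c1]
            have e1 : a - 1 + 1 = a := by omega
            have h3 := hpa (a - 1) (by omega)
            rwa [e1] at h3
      · -- a vertex with three neighbours
        have e1 : i - 1 + 1 = i := by omega
        have h3 := hpa (i - 1) (by omega)
        rw [e1, Finset.pair_comm] at h3
        refine no_three hΔ e (w := p i) (a := p (i - 1)) (b := p (i + 1)) (c := v) ?_ ?_ ?_ ?_ ?_
          huv h3 (hpa i h1) hΔv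
        · intro h4
          have := hp _ (by omega) _ (by omega) h4
          omega
        · exact hv' _ (by omega)
        · exact hv' _ (by omega)
        · intro h4
          have := hp _ (by omega) _ (by omega) h4
          omega
        · intro h4
          have := hp _ (by omega) _ (by omega) h4
          omega
    · -- extend at the end
      have hik : i = k := by omega
      subst hik
      apply hmax
      refine ⟨fun j => if j = i + 1 then v else p j, ?_, ?_⟩
      · intro a ha b hb hab
        simp only at hab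
        split_ifs at hab with c1 c2 c2
        · omega
        · exact absurd hab.symm (hv' _ (by omega))
        · exact absurd hab (hv' _ (by omega))
        · exact hp _ (by omega) _ (by omega) hab
      · intro a ha
        simp only
        split_ifs with c1 c2 c2
        · omega
        · omega
        · have : a = i := by omega
          subst this
          exact hΔv
        · exact hpa _ (by omega)
  have hall := closed_all hΔ e {u | ∃ i ≤ k, p i = u} ⟨p 0, 0, Nat.zero_le _, rfl⟩ hcl
  have hkn : k + 1 ≤ n := hPn k ⟨p, hp, hpa⟩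
  refine ⟨(Finset.range (k / 2 + 1)).image fun j => p (2 * j), ?_, ?_⟩
  swap
  · have h1 : ((Finset.range (k / 2 + 1)).image fun j => p (2 * j)).card ≤ k / 2 + 1 := by
      refine Finset.card_image_le.trans ?_
      rw [Finset.card_range]
    omega
  intro s hs
  by_contra hcon
  push Not at hcon
  have hodd : ∀ i ≤ k, p i ∈ s → i % 2 = 1 := by
    intro i hi his
    by_contra h1
    apply hcon _ his
    rw [Finset.mem_image]
    refine ⟨i / 2, Finset.mem_range.2 (by omega), ?_⟩
    congr 1
    omega
  have hne : s.Nonempty := by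
    by_contra h1
    rw [Finset.not_nonempty_iff_eq_empty] at h1
    have := hs.2 {⟨0, hn⟩} (hΔ.vert _) (by rw [h1]; exact Finset.empty_subset _)
    rw [h1] at this
    exact Finset.singleton_ne_empty _ this
  obtain ⟨u, hu⟩ := hne
  obtain ⟨i, hi, rfl⟩ := hall u
  have h1 := hodd i hi hu
  -- there is no other vertex
  have hsingle : ∀ a ≤ k, ∀ b ≤ k, p a ∈ s → p b ∈ s → a < b → False := by
    intro a ha b hb has hbs hab
    have h2 := hodd a ha has
    have h3 := hodd b hb hbs
    have hface : {p a, p b} ∈ Δ := by
      refine hΔ.down s hs.1 _ ?_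
      intro x hx
      rw [Finset.mem_insert, Finset.mem_singleton] at hx
      rcases hx with rfl | rfl
      · exact has
      · exact hbs
    have e1 : a - 1 + 1 = a := by omega
    have h4 := hpa (a - 1) (by omega)
    rw [e1, Finset.pair_comm] at h4
    refine no_three hΔ e (w := p a) (a := p (a - 1)) (b := p (a + 1)) (c := p b) ?_ ?_ ?_ ?_ ?_ ?_
      h4 (hpa a (by omega)) hface
    all_goals
      intro h5
      have := hp _ (by omega) _ (by omega) h5
      omega
  have hsub : s = {p i} := by
    refine Finset.eq_singleton_iff_unique_mem.2 ⟨hu, fun v hv => ?_⟩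
    obtain ⟨j, hj, rfl⟩ := hall v
    rcases lt_trichotomy i j with h2 | h2 | h2
    · exact (hsingle i hi j hj hu hv h2).elim
    · rw [h2]
    · exact (hsingle j hj i hi hv hu h2).elim
  have e1 : i - 1 + 1 = i := by omega
  have h4 := hpa (i - 1) (by omega)
  rw [e1] at h4
  have h5 := hs.2 _ h4 (by
    rw [hsub]
    intro x hx
    rw [Finset.mem_singleton] at hx
    subst hx
    simp)
  have h6 : p (i - 1) ∈ s := by
    rw [← h5]
    simp
  have := hodd (i - 1) (by omega) h6
  omega

/-- the transversal ratio of a simplicial circle -/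
theorem ratio_le (h : IsSimplicialSphere 2 Δ) :
    transversalRatio Δ ≤ 1 / 2 + 1 / (2 * (n : ℝ)) := by
  obtain ⟨hΔ, ⟨e⟩⟩ := h
  rcases Nat.eq_zero_or_pos n with hn | hn
  · subst hn
    simp [transversalRatio]
  obtain ⟨W, hW, hc⟩ := exists_cover hn hΔ e
  have h1 : transversalNumber Δ ≤ W.card := Nat.sInf_le ⟨W, hW, rfl⟩
  have h2 : (0 : ℝ) < n := by exact_mod_cast hn
  unfold transversalRatio
  rw [div_le_iff₀ h2]
  have h3 : 2 * (transversalNumber Δ : ℝ) ≤ n + 1 := by
    have : 2 * transversalNumber Δ ≤ n + 1 := by omega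
    exact_mod_cast this
  have e1 : (1 / 2 + 1 / (2 * (n : ℝ))) * n = (n + 1) / 2 := by
    field_simp
  rw [e1]
  linarith

end

end Pool.Agent.Q8.TR
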