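import Mathlib
import Pool.Agent.H523R3.TransMain

set_option autoImplicit false

/-!
# Simplicial 3-polytopes with transversal ratio near one half

A nested sequence of blocks of four vertices: inside the triangle `w x₁ x₂` of a block one puts an
antiprism whose inner triangle `x₁' x₂' x₃'` carries a vertex `w'` of degree three.
-/

namespace Pool.Agent.Q8.TR

open Pool.Agent.H523R3.Trans Pool.Agent.H523R3.Frames Filter Topology

/-- the three heights of the vertex `i`; `4 t, 4 t + 1, 4 t + 2, 4 t + 3` are `x₁, x₂, x₃, w` in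
block `t` -/
def ht (M : ℤ) (k : Fin 3) (i : ℕ) : ℤ :=
  if k = 0 then
    if i % 4 = 0 then 4 * ((i / 4 : ℕ) : ℤ) else if i % 4 = 1 then 4 * ((i / 4 : ℕ) : ℤ) + 1 else
      if i % 4 = 2 then M - 4 * ((i / 4 : ℕ) : ℤ) else M - 4 * ((i / 4 : ℕ) : ℤ) - 1
  else if k = 1 then
    if i % 4 = 1 then 4 * ((i / 4 : ℕ) : ℤ) else if i % 4 = 2 then 4 * ((i / 4 : ℕ) : ℤ) + 1 else
      if i % 4 = 3 then 4 * ((i / 4 : ℕ) : ℤ) + 2 else M - 4 * ((i / 4 : ℕ) : ℤ)
  else
    if i % 4 = 2 then 4 * ((i / 4 : ℕ) : ℤ) else if i % 4 = 0 then 4 * ((i / 4 : ℕ) : ℤ) + 1 else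
      if i % 4 = 3 then 4 * ((i / 4 : ℕ) : ℤ) + 2 else M - 4 * ((i / 4 : ℕ) : ℤ)

lemma ht0 (M : ℤ) (i : ℕ) : ht M 0 i =
    if i % 4 = 0 then 4 * ((i / 4 : ℕ) : ℤ) else if i % 4 = 1 then 4 * ((i / 4 : ℕ) : ℤ) + 1 else
      if i % 4 = 2 then M - 4 * ((i / 4 : ℕ) : ℤ) else M - 4 * ((i / 4 : ℕ) : ℤ) - 1 := rfl

lemma ht1 (M : ℤ) (i : ℕ) : ht M 1 i =
    if i % 4 = 1 then 4 * ((i / 4 : ℕ) : ℤ) else if i % 4 = 2 then 4 * ((i / 4 : ℕ) : ℤ) + 1 else
      if i % 4 = 3 then 4 * ((i / 4 : ℕ) : ℤ) + 2 else M - 4 * ((i / 4 : ℕ) : ℤ) := rfl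

lemma ht2 (M : ℤ) (i : ℕ) : ht M 2 i =
    if i % 4 = 2 then 4 * ((i / 4 : ℕ) : ℤ) else if i % 4 = 0 then 4 * ((i / 4 : ℕ) : ℤ) + 1 else
      if i % 4 = 3 then 4 * ((i / 4 : ℕ) : ℤ) + 2 else M - 4 * ((i / 4 : ℕ) : ℤ) := rfl

lemma anti {M : ℤ} {n : ℕ} (hM : 4 * (n : ℤ) ≤ M) {i j : ℕ} (hi : i < n) (hj : j < n)
    (hij : i ≠ j) : ∃ k, ht M k i < ht M k j := by
  by_contra hcon
  push Not at hcon
  have h0 := hcon 0
  have h1 := hcon 1
  have h2 := hcon 2
  rw [ht0, ht0] at h0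
  rw [ht1, ht1] at h1
  rw [ht2, ht2] at h2
  split_ifs at h0 h1 h2 <;> omega

/-- a triple of vertices which is a frame -/
def Fr (M : ℤ) (n a b c : ℕ) : Prop :=
  (a < n ∧ b < n ∧ c < n) ∧
  (ht M 0 b < ht M 0 a ∧ ht M 0 c < ht M 0 a) ∧
  (ht M 1 a < ht M 1 b ∧ ht M 1 c < ht M 1 b) ∧
  (ht M 2 a < ht M 2 c ∧ ht M 2 b < ht M 2 c) ∧
  ∀ v < n, v ≠ a → v ≠ b → v ≠ c → ht M 0 a < ht M 0 v ∨ ht M 1 b < ht M 1 v ∨ ht M 2 c < ht M 2 v

section frames

variable {M : ℤ} {n : ℕ} (hM : 4 * (n : ℤ) ≤ M)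
include hM

lemma fr1 {t : ℕ} (h : 4 * t + 3 < n) : Fr M n (4 * t + 2) (4 * t + 3) (4 * t + 1) := by
  refine ⟨⟨by omega, by omega, by omega⟩, ?_, ?_, ?_, fun v hv h1 h2 h3 => ?_⟩
  · simp only [ht0]; constructor <;> split_ifs <;> omega
  · simp only [ht1]; constructor <;> split_ifs <;> omega
  · simp only [ht2]; constructor <;> split_ifs <;> omega
  · by_contra hcon
    push Not at hcon
    obtain ⟨c0, c1, c2⟩ := hcon
    rw [ht0, ht0] at c0
    rw [ht1, ht1] at c1
    rw [ht2, ht2] at c2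
    split_ifs at c0 c1 c2 <;> omega

lemma fr2 {t : ℕ} (h : 4 * t + 3 < n) : Fr M n (4 * t + 2) (4 * t) (4 * t + 3) := by
  refine ⟨⟨by omega, by omega, by omega⟩, ?_, ?_, ?_, fun v hv h1 h2 h3 => ?_⟩
  · simp only [ht0]; constructor <;> split_ifs <;> omega
  · simp only [ht1]; constructor <;> split_ifs <;> omega
  · simp only [ht2]; constructor <;> split_ifs <;> omega
  · by_contra hcon
    push Not at hcon
    obtain ⟨c0, c1, c2⟩ := hcon
    rw [ht0, ht0] at c0
    rw [ht1, ht1] at c1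
    rw [ht2, ht2] at c2
    split_ifs at c0 c1 c2 <;> omega

/-- `w x₁ x₃'` -/
lemma fr3 {t : ℕ} (h : 4 * t + 7 < n) : Fr M n (4 * t + 3) (4 * t) (4 * t + 6) := by
  refine ⟨⟨by omega, by omega, by omega⟩, ?_, ?_, ?_, fun v hv h1 h2 h3 => ?_⟩
  · simp only [ht0]; constructor <;> split_ifs <;> omega
  · simp only [ht1]; constructor <;> split_ifs <;> omega
  · simp only [ht2]; constructor <;> split_ifs <;> omega
  · by_contra hcon
    push Not at hcon
    obtain ⟨c0, c1, c2⟩ := hcon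
    rw [ht0, ht0] at c0
    rw [ht1, ht1] at c1
    rw [ht2, ht2] at c2
    split_ifs at c0 c1 c2 <;> omega

/-- `x₁' x₁ x₂` -/
lemma fr4 {t : ℕ} (h : 4 * t + 7 < n) : Fr M n (4 * t + 4) (4 * t) (4 * t + 1) := by
  refine ⟨⟨by omega, by omega, by omega⟩, ?_, ?_, ?_, fun v hv h1 h2 h3 => ?_⟩
  · simp only [ht0]; constructor <;> split_ifs <;> omega
  · simp only [ht1]; constructor <;> split_ifs <;> omega
  · simp only [ht2]; constructor <;> split_ifs <;> omega
  · by_contra hcon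
    push Not at hcon
    obtain ⟨c0, c1, c2⟩ := hcon
    rw [ht0, ht0] at c0
    rw [ht1, ht1] at c1
    rw [ht2, ht2] at c2
    split_ifs at c0 c1 c2 <;> omega

/-- `w x₂' x₂` -/
lemma fr5 {t : ℕ} (h : 4 * t + 7 < n) : Fr M n (4 * t + 3) (4 * t + 5) (4 * t + 1) := by
  refine ⟨⟨by omega, by omega, by omega⟩, ?_, ?_, ?_, fun v hv h1 h2 h3 => ?_⟩
  · simp only [ht0]; constructor <;> split_ifs <;> omega
  · simp only [ht1]; constructor <;> split_ifs <;> omega
  · simp only [ht2]; constructor <;> split_ifs <;> omega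
  · by_contra hcon
    push Not at hcon
    obtain ⟨c0, c1, c2⟩ := hcon
    rw [ht0, ht0] at c0
    rw [ht1, ht1] at c1
    rw [ht2, ht2] at c2
    split_ifs at c0 c1 c2 <;> omega

/-- `w x₃' x₂'` -/
lemma fr6 {t : ℕ} (h : 4 * t + 7 < n) : Fr M n (4 * t + 3) (4 * t + 6) (4 * t + 5) := by
  refine ⟨⟨by omega, by omega, by omega⟩, ?_, ?_, ?_, fun v hv h1 h2 h3 => ?_⟩
  · simp only [ht0]; constructor <;> split_ifs <;> omega
  · simp only [ht1]; constructor <;> split_ifs <;> omega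
  · simp only [ht2]; constructor <;> split_ifs <;> omega
  · by_contra hcon
    push Not at hcon
    obtain ⟨c0, c1, c2⟩ := hcon
    rw [ht0, ht0] at c0
    rw [ht1, ht1] at c1
    rw [ht2, ht2] at c2
    split_ifs at c0 c1 c2 <;> omega

/-- `x₃' x₁ x₁'` -/
lemma fr7 {t : ℕ} (h : 4 * t + 7 < n) : Fr M n (4 * t + 6) (4 * t) (4 * t + 4) := by
  refine ⟨⟨by omega, by omega, by omega⟩, ?_, ?_, ?_, fun v hv h1 h2 h3 => ?_⟩
  · simp only [ht0]; constructor <;> split_ifs <;> omega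
  · simp only [ht1]; constructor <;> split_ifs <;> omega
  · simp only [ht2]; constructor <;> split_ifs <;> omega
  · by_contra hcon
    push Not at hcon
    obtain ⟨c0, c1, c2⟩ := hcon
    rw [ht0, ht0] at c0
    rw [ht1, ht1] at c1
    rw [ht2, ht2] at c2
    split_ifs at c0 c1 c2 <;> omega

/-- `x₂' x₁' x₂` -/
lemma fr8 {t : ℕ} (h : 4 * t + 7 < n) : Fr M n (4 * t + 5) (4 * t + 4) (4 * t + 1) := by
  refine ⟨⟨by omega, by omega, by omega⟩, ?_, ?_, ?_, fun v hv h1 h2 h3 => ?_⟩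
  · simp only [ht0]; constructor <;> split_ifs <;> omega
  · simp only [ht1]; constructor <;> split_ifs <;> omega
  · simp only [ht2]; constructor <;> split_ifs <;> omega
  · by_contra hcon
    push Not at hcon
    obtain ⟨c0, c1, c2⟩ := hcon
    rw [ht0, ht0] at c0
    rw [ht1, ht1] at c1
    rw [ht2, ht2] at c2
    split_ifs at c0 c1 c2 <;> omega

end frames

/-! ### Counting -/

/-- the potential of a block -/
def pot (a b c w : Bool) : ℤ :=
  if w && ((a && b) || (a && c) || (b && c)) then 0 else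
    if c && !a && !b && !w then -2 else -1

/-- number of true values -/
def cnt (a b c w : Bool) : ℤ := a.toNat + b.toNat + c.toNat + w.toNat

lemma pot_start : ∀ a b c w : Bool, (c || w || b) = true → (c || a || w) = true →
    pot a b c w ≤ cnt a b c w - 2 := by decide

/-- the constraints between a block and the next one -/
def allowed (a b c w a' b' c' w' : Bool) : Bool :=
  (c' || w' || b') && (c' || a' || w') && (w || a || c') && (a' || a || b) &&
    (w || b' || b) && (w || c' || b') && (c' || a || a') && (b' || a' || b)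

lemma pot_step' : ∀ a b c w a' b' c' w' : Bool, allowed a b c w a' b' c' w' = true →
    pot a' b' c' w' ≤ pot a b c w + cnt a' b' c' w' - 2 := by decide

lemma pot_step (a b c w a' b' c' w' : Bool)
    (h1 : (c' || w' || b') = true) (h2 : (c' || a' || w') = true) (h3 : (w || a || c') = true)
    (h4 : (a' || a || b) = true) (h5 : (w || b' || b) = true) (h6 : (w || c' || b') = true)
    (h7 : (c' || a || a') = true) (h8 : (b' || a' || b) = true) :
    pot a' b' c' w' ≤ pot a b c w + cnt a' b' c' w' - 2 := by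
  refine pot_step' a b c w a' b' c' w' ?_
  unfold allowed
  rw [h1, h2, h3, h4, h5, h6, h7, h8]
  rfl

lemma pot_low : ∀ a b c w : Bool, -2 ≤ pot a b c w := by decide

/-- a set of vertices which meets all the frames has at least `2 m - 2` elements -/
lemma count (m : ℕ) (hm : 0 < m) (S : ℕ → Bool)
    (h : ∀ a b c : ℕ, Fr (16 * m) (4 * m) a b c → (S a || S b || S c) = true) :
    2 * (m : ℤ) - 2 ≤ ∑ i ∈ Finset.range (4 * m), ((S i).toNat : ℤ) := by
  have hM : 4 * ((4 * m : ℕ) : ℤ) ≤ 16 * m := by push_cast; linarith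
  have key : ∀ t, t < m → pot (S (4 * t)) (S (4 * t + 1)) (S (4 * t + 2)) (S (4 * t + 3)) +
      2 * (t + 1 : ℤ) ≤ ∑ i ∈ Finset.range (4 * (t + 1)), ((S i).toNat : ℤ) := by
    intro t
    induction t with
    | zero =>
      intro _
      have h1 := pot_start (S (4 * 0)) (S (4 * 0 + 1)) (S (4 * 0 + 2)) (S (4 * 0 + 3))
        (h _ _ _ (fr1 hM (by omega))) (h _ _ _ (fr2 hM (by omega)))
      simp only [cnt] at h1
      have e : ∑ i ∈ Finset.range (4 * (0 + 1)), ((S i).toNat : ℤ) =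
          (S (4 * 0)).toNat + (S (4 * 0 + 1)).toNat + (S (4 * 0 + 2)).toNat +
            (S (4 * 0 + 3)).toNat := by
        simp [Finset.sum_range_succ]
      rw [e]
      push_cast
      linarith
    | succ t ih =>
      intro ht
      have h0 := ih (by omega)
      have h1 := pot_step (S (4 * t)) (S (4 * t + 1)) (S (4 * t + 2)) (S (4 * t + 3))
        (S (4 * (t + 1))) (S (4 * (t + 1) + 1)) (S (4 * (t + 1) + 2)) (S (4 * (t + 1) + 3))
        (h _ _ _ (fr1 hM (by omega))) (h _ _ _ (fr2 hM (by omega)))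
        (h _ _ _ (fr3 hM (by omega))) (h _ _ _ (fr4 hM (by omega)))
        (h _ _ _ (fr5 hM (by omega))) (h _ _ _ (fr6 hM (by omega)))
        (h _ _ _ (fr7 hM (by omega))) (h _ _ _ (fr8 hM (by omega)))
      simp only [cnt] at h1
      have e : ∑ i ∈ Finset.range (4 * (t + 1 + 1)), ((S i).toNat : ℤ) =
          ∑ i ∈ Finset.range (4 * (t + 1)), ((S i).toNat : ℤ) +
            ((S (4 * (t + 1))).toNat + (S (4 * (t + 1) + 1)).toNat +
            (S (4 * (t + 1) + 2)).toNat + (S (4 * (t + 1) + 3)).toNat) := by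
        have e2 : 4 * (t + 1 + 1) = 4 * (t + 1) + 1 + 1 + 1 + 1 := by ring
        rw [e2, Finset.sum_range_succ, Finset.sum_range_succ, Finset.sum_range_succ,
          Finset.sum_range_succ]
        ring
      rw [e]
      push_cast
      linarith
  have h1 := key (m - 1) (by omega)
  have h2 := pot_low (S (4 * (m - 1))) (S (4 * (m - 1) + 1)) (S (4 * (m - 1) + 2))
    (S (4 * (m - 1) + 3))
  have e : m - 1 + 1 = m := by omega
  rw [e] at h1
  have e2 : (((m - 1 : ℕ) : ℤ) + 1) = m := by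
    have : ((m - 1 + 1 : ℕ) : ℤ) = m := by rw [e]
    push_cast at this
    exact this
  rw [e2] at h1
  linarith

/-- For every `m ≥ 1` there is a simplicial 3-polytope with `4 m` vertices and transversal number at
least `2 m - 2`. -/
theorem exists_three (m : ℕ) (hm : 0 < m) : ∃ p : Fin (4 * m) → E 3, IsSimplicialPolytope 3 p ∧
    1 / 2 - 1 / (2 * (m : ℝ)) ≤ transversalRatio (boundary p) := by
  classical
  obtain ⟨F, hF⟩ : ∃ F : Fin 3 → Fin (4 * m) → ℤ, 
      F = fun k (i : Fin (4 * m)) => ht (16 * m) k (i : ℕ) := ⟨_, rfl⟩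
  have hM : 4 * ((4 * m : ℕ) : ℤ) ≤ 16 * m := by push_cast; linarith
  obtain ⟨s, hs, hFs, hgp⟩ := exists_paramD (by norm_num : 0 < 3) F
  have hanti : ∀ i j, i ≠ j → ∃ k, F k i < F k j := by
    intro i j hij
    rw [hF]
    exact anti hM i.2 j.2 fun h => hij (Fin.ext h)
  have hp := isSimplicialPolytope_pt (by norm_num : 0 < 3) (by omega) F hanti hs hFs hgp
  refine ⟨pt F s, hp, ?_⟩
  have hΔ := isComplex_boundary (by norm_num : 0 < 3) hp
  have hn0 : 0 < 4 * m := by omega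
  have hne : {k | ∃ W, IsTransversal (boundary (pt F s)) W ∧ W.card = k}.Nonempty := by
    refine ⟨_, Finset.univ, ?_, rfl⟩
    intro t ht
    have hne : t.Nonempty := by
      by_contra hcon
      rw [Finset.not_nonempty_iff_eq_empty] at hcon
      have := ht.2 {⟨0, hn0⟩} (hΔ.vert _) (by rw [hcon]; exact Finset.empty_subset _)
      rw [hcon] at this
      exact Finset.singleton_ne_empty _ this
    obtain ⟨v, hv⟩ := hne
    exact ⟨v, hv, Finset.mem_univ v⟩
  obtain ⟨W, hW, hWcard⟩ := Nat.sInf_mem hne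
  have hframe : ∀ a b c : ℕ, Fr (16 * m) (4 * m) a b c →
      ((decide (∃ h : a < 4 * m, (⟨a, h⟩ : Fin (4 * m)) ∈ W)) ||
        (decide (∃ h : b < 4 * m, (⟨b, h⟩ : Fin (4 * m)) ∈ W)) ||
        (decide (∃ h : c < 4 * m, (⟨c, h⟩ : Fin (4 * m)) ∈ W))) = true := by
    intro a b c hfr
    obtain ⟨⟨ha, hb, hc⟩, h0, h1, h2, hv⟩ := hfr
    have hfac := isFacet_of_frame (by norm_num : 0 < 3) F hs hFs hp ![⟨a, ha⟩, ⟨b, hb⟩, ⟨c, hc⟩]
      (by
        intro k l hkl
        rw [hF]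
        fin_cases k <;> fin_cases l
        · exact absurd rfl hkl
        · exact h0.1
        · exact h0.2
        · exact h1.1
        · exact absurd rfl hkl
        · exact h1.2
        · exact h2.1
        · exact h2.2
        · exact absurd rfl hkl)
      (by
        intro v hk
        have h3 : (v : ℕ) ≠ a := fun h => hk 0 (Fin.ext h)
        have h4 : (v : ℕ) ≠ b := fun h => hk 1 (Fin.ext h)
        have h5 : (v : ℕ) ≠ c := fun h => hk 2 (Fin.ext h)
        rw [hF]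
        rcases hv v v.2 h3 h4 h5 with h | h | h
        · exact ⟨0, h⟩
        · exact ⟨1, h⟩
        · exact ⟨2, h⟩)
    obtain ⟨v, hv1, hv2⟩ := hW _ hfac
    simp only [Finset.mem_image, Finset.mem_univ, true_and] at hv1
    obtain ⟨k, rfl⟩ := hv1
    fin_cases k
    · have : ∃ h : a < 4 * m, (⟨a, h⟩ : Fin (4 * m)) ∈ W := ⟨ha, hv2⟩
      rw [decide_eq_true this]
      rfl
    · have : ∃ h : b < 4 * m, (⟨b, h⟩ : Fin (4 * m)) ∈ W := ⟨hb, hv2⟩
      rw [decide_eq_true this, Bool.or_true]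
      rfl
    · have : ∃ h : c < 4 * m, (⟨c, h⟩ : Fin (4 * m)) ∈ W := ⟨hc, hv2⟩
      rw [decide_eq_true this, Bool.or_true]
  have hcount := count m hm (fun i => decide (∃ h : i < 4 * m, (⟨i, h⟩ : Fin (4 * m)) ∈ W)) hframe
  have hsum : ∑ i ∈ Finset.range (4 * m),
      (((decide (∃ h : i < 4 * m, (⟨i, h⟩ : Fin (4 * m)) ∈ W)).toNat : ℕ) : ℤ) = W.card := by
    rw [← Fin.sum_univ_eq_sum_range
      (fun i => (((decide (∃ h : i < 4 * m, (⟨i, h⟩ : Fin (4 * m)) ∈ W)).toNat : ℕ) : ℤ)),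
      Finset.card_eq_sum_ones, Nat.cast_sum, ← Finset.sum_filter_add_sum_filter_not Finset.univ
      (fun i => i ∈ W)]
    have e1 : Finset.univ.filter (fun i => i ∈ W) = W := by ext; simp
    rw [e1]
    have e2 : ∑ i ∈ Finset.univ.filter (fun i => i ∉ W),
        (((decide (∃ h : (i : ℕ) < 4 * m, (⟨i, h⟩ : Fin (4 * m)) ∈ W)).toNat : ℕ) : ℤ) = 0 := by
      refine Finset.sum_eq_zero fun i hi => ?_
      have h1 := (Finset.mem_filter.1 hi).2
      have : ¬ ∃ h : (i : ℕ) < 4 * m, (⟨i, h⟩ : Fin (4 * m)) ∈ W := by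
        rintro ⟨_, h⟩
        exact h1 h
      rw [decide_eq_false this]
      rfl
    rw [e2, add_zero]
    refine Finset.sum_congr rfl fun i hi => ?_
    have : ∃ h : (i : ℕ) < 4 * m, (⟨i, h⟩ : Fin (4 * m)) ∈ W := ⟨i.2, hi⟩
    rw [decide_eq_true this]
    rfl
  rw [hsum] at hcount
  have hmR : (0 : ℝ) < m := by exact_mod_cast hm
  have hc : 2 * (m : ℝ) - 2 ≤ W.card := by exact_mod_cast hcount
  unfold transversalRatio transversalNumber
  rw [← hWcard]
  push_cast
  rw [le_div_iff₀ (by positivity)]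
  have e : (1 / 2 - 1 / (2 * (m : ℝ))) * (4 * m) = 2 * m - 2 := by
    field_simp
    ring
  rw [e]
  exact hc

end Pool.Agent.Q8.TR
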